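import Mathlib
import Pool.Agent.W226.MP.Place

/-!
Occurrences of a block in many disjoint windows, for most elements of a finite family of numbers.
-/

set_option autoImplicit false

open Finset Filter Topology

namespace Pool.Agent.Y949.MP

open Pool.Agent.W226.MP (occ OccursAt)

/-- the bound for the end of the `T`-th window -/
noncomputable def X (A B : ℝ) : ℕ → ℝ
  | 0 => 0
  | T + 1 => A * X A B T + B

lemma X_nonneg {A B : ℝ} (hA : 0 ≤ A) (hB : 0 ≤ B) (T : ℕ) : 0 ≤ X A B T := by
  induction T with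
  | zero => simp [X]
  | succ T ih => rw [X]; positivity

lemma X_le {A B : ℝ} (hA : 2 ≤ A) (hB : 0 ≤ B) (T : ℕ) : X A B T + B ≤ B * A ^ T := by
  induction T with
  | zero => simp [X]
  | succ T ih =>
    rw [X, pow_succ]
    have h1 : A * (X A B T + B) ≤ A * (B * A ^ T) := mul_le_mul_of_nonneg_left ih (by linarith)
    nlinarith

open Classical in
lemma occ_split (b k : ℕ) (w : Fin k → Fin b) (y : ℝ) (s l n : ℕ) (h : s + l ≤ n) :
    occ b k w y 0 s + occ b k w y s l ≤ occ b k w y 0 n := by
  unfold occ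
  have h1 : ((range l).filter (fun j => OccursAt b k w y (s + j))).card =
      ((Ico s (s + l)).filter (fun j => OccursAt b k w y (0 + j))).card := by
    rw [← Finset.card_image_of_injective _ (add_right_injective s)]
    congr 1
    ext j
    simp only [Finset.mem_image, Finset.mem_filter, Finset.mem_range, Finset.mem_Ico]
    constructor
    · rintro ⟨i, ⟨h1, h2⟩, rfl⟩
      exact ⟨⟨by omega, by omega⟩, by rwa [zero_add]⟩
    · rintro ⟨⟨h1, h2⟩, h3⟩
      refine ⟨j - s, ⟨by omega, ?_⟩, by omega⟩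
      rw [zero_add] at h3
      rwa [show s + (j - s) = j by omega]
  rw [h1, ← Finset.card_union_of_disjoint]
  · apply Finset.card_le_card
    intro j hj
    simp only [Finset.mem_union, Finset.mem_filter, Finset.mem_range, Finset.mem_Ico] at hj ⊢
    rcases hj with ⟨h2, h3⟩ | ⟨⟨h2, h2'⟩, h3⟩
    · exact ⟨by omega, h3⟩
    · exact ⟨by omega, h3⟩
  · rw [Finset.disjoint_left]
    intro j hj hj'
    simp only [Finset.mem_filter, Finset.mem_range, Finset.mem_Ico] at hj hj'
    omega

lemma occ_mono (b k : ℕ) (w : Fin k → Fin b) (y : ℝ) (s l n : ℕ) (h : l ≤ n) :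
    occ b k w y s l ≤ occ b k w y s n := by
  classical
  unfold occ
  apply Finset.card_le_card
  apply Finset.filter_subset_filter
  exact Finset.range_subset_range.2 h

open Classical in
/-- many windows: `bad` counts the bad windows -/
lemma windows (b k l N : ℕ) (y : ℕ → ℝ) (A B g β : ℝ) (hA : 1 ≤ A) (hB : 0 ≤ B) (hg : 0 ≤ g)
    (hgood : ∀ S : ℕ, ∃ s : ℕ, S ≤ s ∧ (s : ℝ) ≤ A * S + B ∧
      (((range N).filter (fun m : ℕ => ∃ w : Fin k → Fin b,
        (occ b k w (y m) s l : ℝ) < g)).card : ℝ) ≤ β) (T : ℕ) :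
    ∃ n : ℕ, (n : ℝ) ≤ X A (B + l) T ∧ ∃ bad : ℕ → ℕ, (∑ m ∈ range N, (bad m : ℝ)) ≤ T * β ∧
      ∀ m, m < N → bad m ≤ T ∧ ∀ w : Fin k → Fin b,
        ((T : ℝ) - bad m) * g ≤ occ b k w (y m) 0 n := by
  induction T with
  | zero =>
    refine ⟨0, by simp [X], fun _ => 0, by simp, fun m _ => ⟨le_rfl, fun w => ?_⟩⟩
    simp only [CharP.cast_eq_zero, sub_self, zero_mul]
    positivity
  | succ T ih =>
    obtain ⟨n, hn, bad, hbad, h⟩ := ih
    obtain ⟨s, hs1, hs2, hs3⟩ := hgood n
    refine ⟨s + l, ?_, fun m => bad m + if (∃ w : Fin k → Fin b,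
        (occ b k w (y m) s l : ℝ) < g) then 1 else 0, ?_, fun m hm => ⟨?_, fun w => ?_⟩⟩
    · rw [X]
      push_cast
      have : A * n ≤ A * X A (B + l) T := mul_le_mul_of_nonneg_left hn (by linarith)
      linarith
    · push_cast
      rw [Finset.sum_add_distrib]
      have e : (∑ m ∈ range N, (if (∃ w : Fin k → Fin b,
          (occ b k w (y m) s l : ℝ) < g) then (1 : ℝ) else 0)) =
          (((range N).filter (fun m : ℕ => ∃ w : Fin k → Fin b,
            (occ b k w (y m) s l : ℝ) < g)).card : ℝ) := by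
        rw [Finset.sum_ite, Finset.sum_const_zero, add_zero, Finset.sum_const, nsmul_eq_mul,
          mul_one]
      rw [e]
      linarith
    · have := (h m hm).1
      beta_reduce
      split_ifs <;> omega
    · have h1 := (h m hm).2 w
      have h2 := occ_split b k w (y m) s l (s + l) le_rfl
      have h3 := occ_mono b k w (y m) 0 n s hs1
      have h4 : (occ b k w (y m) 0 n : ℝ) + occ b k w (y m) s l ≤ occ b k w (y m) 0 (s + l) := by
        exact_mod_cast (Nat.add_le_add_right h3 _).trans h2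
      have h5 : (0 : ℝ) ≤ occ b k w (y m) s l := Nat.cast_nonneg _
      beta_reduce
      split_ifs with hb
      · push_cast
        have e : ((T : ℝ) + 1 - (bad m + 1)) = T - bad m := by ring
        rw [e]
        linarith
      · push Not at hb
        have h6 := hb w
        push_cast
        have e : ((T : ℝ) + 1 - (bad m + 0)) * g = (T - bad m) * g + g := by ring
        rw [e]
        linarith

open Classical in
/-- most elements have many occurrences -/
theorem most (b k l N : ℕ) (y : ℕ → ℝ) (A B g β : ℝ) (hA : 1 ≤ A) (hB : 0 ≤ B) (hg : 0 ≤ g)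
    (hgood : ∀ S : ℕ, ∃ s : ℕ, S ≤ s ∧ (s : ℝ) ≤ A * S + B ∧
      (((range N).filter (fun m : ℕ => ∃ w : Fin k → Fin b,
        (occ b k w (y m) s l : ℝ) < g)).card : ℝ) ≤ β) (ε : ℝ) (hε : 0 < ε) (T n : ℕ)
    (hn : X A (B + l) T ≤ n) :
    (((range N).filter (fun m : ℕ => ∃ w : Fin k → Fin b,
        (occ b k w (y m) 0 n : ℝ) < (1 - ε) * T * g)).card : ℝ) ≤ β / ε := by
  obtain ⟨n', hn', bad, hbad, h⟩ := windows b k l N y A B g β hA hB hg hgood T
  have hβ : 0 ≤ β := by
    obtain ⟨s, -, -, h⟩ := hgood 0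
    exact (Nat.cast_nonneg _).trans h
  have hnn : n' ≤ n := by exact_mod_cast hn'.trans hn
  have key : ∀ m ∈ (range N).filter (fun m : ℕ => ∃ w : Fin k → Fin b,
        (occ b k w (y m) 0 n : ℝ) < (1 - ε) * T * g), ε * T ≤ (bad m : ℝ) ∧ 0 < T := by
    intro m hm
    rw [Finset.mem_filter, Finset.mem_range] at hm
    obtain ⟨hm, w, hw⟩ := hm
    have h1 := (h m hm).2 w
    have h2 : (occ b k w (y m) 0 n' : ℝ) ≤ occ b k w (y m) 0 n := by
      exact_mod_cast occ_mono b k w (y m) 0 n' n hnn
    have h3 : ((T : ℝ) - bad m) * g < (1 - ε) * T * g := lt_of_le_of_lt (h1.trans h2) hw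
    have h4 : (T : ℝ) - bad m < (1 - ε) * T := lt_of_mul_lt_mul_right h3 hg
    refine ⟨by linarith, ?_⟩
    rcases Nat.eq_zero_or_pos T with h5 | h5
    · exfalso
      rw [h5] at hw
      simp only [CharP.cast_eq_zero, mul_zero, zero_mul] at hw
      exact absurd hw (not_lt.2 (Nat.cast_nonneg _))
    · exact h5
  rcases Nat.eq_zero_or_pos T with hT | hT
  · have : (range N).filter (fun m : ℕ => ∃ w : Fin k → Fin b,
        (occ b k w (y m) 0 n : ℝ) < (1 - ε) * T * g) = ∅ := by
      rw [Finset.eq_empty_iff_forall_notMem]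
      intro m hm
      have := (key m hm).2
      omega
    rw [this]
    simp only [Finset.card_empty, CharP.cast_eq_zero]
    positivity
  · have hTR : (0 : ℝ) < T := by exact_mod_cast hT
    have h1 : (((range N).filter (fun m : ℕ => ∃ w : Fin k → Fin b,
        (occ b k w (y m) 0 n : ℝ) < (1 - ε) * T * g)).card : ℝ) * (ε * T) ≤ T * β := by
      refine le_trans ?_ hbad
      rw [← nsmul_eq_mul]
      refine (Finset.card_nsmul_le_sum _ (fun m => (bad m : ℝ)) _ fun m hm => (key m hm).1).trans ?_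
      exact Finset.sum_le_sum_of_subset_of_nonneg (Finset.filter_subset _ _)
        (fun i _ _ => Nat.cast_nonneg _)
    rw [le_div_iff₀ hε]
    have h2 : (((range N).filter (fun m : ℕ => ∃ w : Fin k → Fin b,
        (occ b k w (y m) 0 n : ℝ) < (1 - ε) * T * g)).card : ℝ) * ε * T ≤ β * T := by linarith
    exact le_of_mul_le_mul_right h2 hTR

end Pool.Agent.Y949.MP
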