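import Mathlib
import Pool.Agent.Y949.MP.Mult
import Pool.Agent.TH419.FS.Consts

/-!
Blocks in most multiples of the classical constants and in most of their integer combinations.
-/

set_option autoImplicit false

open Finset Filter

namespace Pool.Agent.Y949.MP

open Pool.Agent.W226.MP

/-- the number of occurrences -/
noncomputable def thr (b k : ℕ) (ε C μ : ℝ) (M n : ℕ) : ℝ :=
  (1 - ε) * (Real.log M / ((b : ℝ) ^ k * Real.log b)) *
    (Real.log (n / (C * Real.log M)) / Real.log μ)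

/-- the bound for numbers of irrationality exponent at most `μ` -/
theorem gen (α μ : ℝ) (hα : Irrational α) (hμ : 2 ≤ μ)
    (h : ∀ η : ℝ, 0 < η → ∃ c0 : ℝ, 0 < c0 ∧ ∀ q : ℕ, 1 ≤ q → ∀ p : ℤ,
      c0 ≤ (q : ℝ) ^ (μ - 1 + η) * |q * α - p|) (b k : ℕ) (hb : 2 ≤ b)
    (hk : 1 ≤ k) (ε : ℝ) (hε : 0 < ε) (hε1 : ε < 1) :
    ∃ c C : ℝ, 0 < c ∧ 0 < C ∧ ∀ c' C' : ℝ, c' ≤ c → C ≤ C' → ∀ x : ℝ, ∀ M n : ℕ, 2 ≤ M →
      (((range M).filter (fun m : ℕ => ∃ w : Fin k → Fin b,
        (occ b k w (x + m * α) 0 n : ℝ) < thr b k ε C' μ M n)).card : ℝ) ≤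
          C' * (M : ℝ) ^ (1 - c') := by
  have hlμ : 0 < Real.log μ := Real.log_pos (by linarith)
  have hη : 0 < μ * (ε / 2 * Real.log μ) := by positivity
  obtain ⟨c0, hc0, h1⟩ := h _ hη
  obtain ⟨c, C, hc, hC, h2⟩ := mult α (μ - 1 + μ * (ε / 2 * Real.log μ)) c0 hα (by linarith) hc0 h1
    b k hb hk (ε / 2) (by linarith) (by linarith)
  refine ⟨c, C, hc, hC, fun c' C' hcc hCC x M n hM => ?_⟩
  have hMR : (2 : ℝ) ≤ M := by exact_mod_cast hM
  have hlM : 0 < Real.log M := Real.log_pos (by linarith)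
  have hlb : 0 < Real.log b := Real.log_pos (by exact_mod_cast hb)
  have hb0 : (0 : ℝ) < b := by positivity
  have e1 : (1 : ℝ) + (μ - 1 + μ * (ε / 2 * Real.log μ)) = μ * (1 + ε / 2 * Real.log μ) := by ring
  rw [e1] at h2
  have hl2 : Real.log (μ * (1 + ε / 2 * Real.log μ)) ≤ (1 + ε / 2) * Real.log μ := by
    rw [Real.log_mul (by linarith) (by positivity)]
    have := Real.log_le_sub_one_of_pos (show (0 : ℝ) < 1 + ε / 2 * Real.log μ by positivity)
    linarith
  have hl3 : 0 < Real.log (μ * (1 + ε / 2 * Real.log μ)) := by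
    apply Real.log_pos
    have : 0 < ε / 2 * Real.log μ := by positivity
    nlinarith
  have hfin : C * (M : ℝ) ^ (1 - c) ≤ C' * (M : ℝ) ^ (1 - c') := by
    apply mul_le_mul hCC (Real.rpow_le_rpow_of_exponent_le (by linarith) (by linarith))
      (by positivity) (by linarith)
  refine le_trans (le_trans (Nat.cast_le.2 (Finset.card_le_card ?_)) (h2 x M n hM)) hfin
  intro m hm
  rw [Finset.mem_filter] at hm ⊢
  refine ⟨hm.1, ?_⟩
  obtain ⟨w, hw⟩ := hm.2
  refine ⟨w, ?_⟩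
  have hw0 : (0 : ℝ) ≤ (occ b k w (x + m * α) 0 n : ℝ) := Nat.cast_nonneg _
  have hthr : 0 < thr b k ε C' μ M n := lt_of_le_of_lt hw0 hw
  refine lt_of_lt_of_le hw ?_
  unfold thr at hthr ⊢
  set A : ℝ := Real.log M / ((b : ℝ) ^ k * Real.log b) with hA
  have hA0 : 0 < A := by positivity
  -- the logarithm is positive
  have hL : 0 < Real.log (n / (C' * Real.log M)) := by
    by_contra hcon
    push Not at hcon
    have : (1 - ε) * A * (Real.log (n / (C' * Real.log M)) / Real.log μ) ≤ 0 :=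
      mul_nonpos_of_nonneg_of_nonpos (by nlinarith) (div_nonpos_of_nonpos_of_nonneg hcon hlμ.le)
    linarith
  have hC'0 : 0 < C' := by linarith
  have hn : 0 < (n : ℝ) := by
    rcases Nat.eq_zero_or_pos n with h0 | h0
    · exfalso
      rw [h0] at hL
      simp at hL
    · exact_mod_cast h0
  have hLL : Real.log (n / (C' * Real.log M)) ≤ Real.log (n / (C * Real.log M)) := by
    apply Real.log_le_log (by positivity)
    gcongr
  have hL' : 0 < Real.log (n / (C * Real.log M)) := lt_of_lt_of_le hL hLL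
  calc (1 - ε) * A * (Real.log (n / (C' * Real.log M)) / Real.log μ)
      ≤ (1 - ε) * A * (Real.log (n / (C * Real.log M)) / Real.log μ) := by
        have : 0 ≤ (1 - ε) * A := by nlinarith
        gcongr
    _ ≤ (1 - ε / 2) * A *
        (Real.log (n / (C * Real.log M)) / Real.log (μ * (1 + ε / 2 * Real.log μ))) := by
        rw [show (1 - ε) * A * (Real.log (n / (C * Real.log M)) / Real.log μ) =
          A * Real.log (n / (C * Real.log M)) * ((1 - ε) / Real.log μ) by ring,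
          show (1 - ε / 2) * A *
            (Real.log (n / (C * Real.log M)) / Real.log (μ * (1 + ε / 2 * Real.log μ))) =
          A * Real.log (n / (C * Real.log M)) *
            ((1 - ε / 2) / Real.log (μ * (1 + ε / 2 * Real.log μ))) by ring]
        apply mul_le_mul_of_nonneg_left _ (by positivity)
        rw [div_le_div_iff₀ hlμ hl3]
        calc (1 - ε) * Real.log (μ * (1 + ε / 2 * Real.log μ))
            ≤ (1 - ε) * ((1 + ε / 2) * Real.log μ) :=
              mul_le_mul_of_nonneg_left hl2 (by linarith)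
          _ ≤ (1 - ε / 2) * Real.log μ := by nlinarith [mul_pos hε hε]

/-- the five constants -/
theorem five (b k : ℕ) (hb : 2 ≤ b) (hk : 1 ≤ k) (ε : ℝ) (hε : 0 < ε) (hε1 : ε < 1) :
    ∃ c C : ℝ, 0 < c ∧ 0 < C ∧ ∀ α μ : ℝ, (α = Real.pi ∧ μ = 6.05) ∨ (α = Real.exp 1 ∧ μ = 2) ∨
      (α = √2 ∧ μ = 2) ∨ (α = Real.log 2 ∧ μ = 4.211) ∨ (α = Real.goldenRatio ∧ μ = 2) →
      ∀ x : ℝ, ∀ M n : ℕ, 2 ≤ M →
      (((range M).filter (fun m : ℕ => ∃ w : Fin k → Fin b,
        (occ b k w (x + m * α) 0 n : ℝ) < thr b k ε C μ M n)).card : ℝ) ≤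
          C * (M : ℝ) ^ (1 - c) := by
  have up : ∀ α lam : ℝ, (∃ c0 : ℝ, 0 < c0 ∧ ∀ q : ℕ, 1 ≤ q → ∀ p : ℤ,
      c0 ≤ (q : ℝ) ^ lam * |q * α - p|) → ∀ η : ℝ, 0 < η → ∃ c0 : ℝ, 0 < c0 ∧ ∀ q : ℕ, 1 ≤ q →
      ∀ p : ℤ, c0 ≤ (q : ℝ) ^ (lam + η) * |q * α - p| := by
    rintro α lam ⟨c0, hc0, h⟩ η hη
    refine ⟨c0, hc0, fun q hq p => (h q hq p).trans ?_⟩
    have hqR : (1 : ℝ) ≤ q := by exact_mod_cast hq
    gcongr
    linarith
  obtain ⟨c1, C1, hc1, hC1, h1⟩ := gen Real.pi 6.05 irrational_pi (by norm_num)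
    (by
      have := up _ _ Pool.Agent.TH419.FS.meas_pi
      norm_num at this ⊢
      exact this) b k hb hk ε hε hε1
  obtain ⟨c2, C2, hc2, hC2, h2⟩ := gen (Real.exp 1) 2
    (by
      have := Pool.Agent.TH419.FS.meas_exp one_pos
      obtain ⟨c, hc, h⟩ := this
      rw [irrational_iff_ne_rational]
      intro a b' hb' hab
      rcases lt_or_gt_of_ne (Int.cast_ne_zero.2 hb' : (b' : ℝ) ≠ 0) with h3 | h3
      · have h4 : b' < 0 := by exact_mod_cast h3
        have h5 := h b'.natAbs (by omega) (-a)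
        have h6 : ((b'.natAbs : ℕ) : ℝ) = -(b' : ℝ) := by
          rw [Nat.cast_natAbs, abs_of_neg h4, Int.cast_neg]
        rw [h6, hab] at h5
        have h7 : (-(b' : ℝ)) * (a / b') - ((-a : ℤ) : ℝ) = 0 := by
          push_cast; field_simp; ring
        rw [h7, abs_zero, mul_zero] at h5
        linarith
      · have h4 : 0 < b' := by exact_mod_cast h3
        have h5 := h b'.natAbs (by omega) a
        have h6 : ((b'.natAbs : ℕ) : ℝ) = (b' : ℝ) := by
          rw [Nat.cast_natAbs, abs_of_pos h4]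
        rw [h6, hab] at h5
        have h7 : (b' : ℝ) * (a / b') - (a : ℝ) = 0 := by
          field_simp; ring
        rw [h7, abs_zero, mul_zero] at h5
        linarith) le_rfl
    (fun η hη => by
      have := Pool.Agent.TH419.FS.meas_exp hη
      norm_num
      exact this) b k hb hk ε hε hε1
  obtain ⟨c3, C3, hc3, hC3, h3⟩ := gen (√2) 2 irrational_sqrt_two le_rfl
    (by
      have := up _ _ Pool.Agent.TH419.FS.meas_sqrt
      norm_num at this ⊢
      exact this) b k hb hk ε hε hε1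
  obtain ⟨c4, C4, hc4, hC4, h4⟩ := gen (Real.log 2) 4.211 Pool.Agent.H346R2.L2.irrational_log_two (by norm_num)
    (by
      have := up _ _ Pool.Agent.W47.LC.ln2
      norm_num at this ⊢
      exact this) b k hb hk ε hε hε1
  obtain ⟨c5, C5, hc5, hC5, h5⟩ := gen Real.goldenRatio 2 Real.goldenRatio_irrational le_rfl
    (by
      have := up _ _ Pool.Agent.TH419.FS.meas_golden
      norm_num at this ⊢
      exact this) b k hb hk ε hε hε1
  refine ⟨min c1 (min c2 (min c3 (min c4 c5))), max C1 (max C2 (max C3 (max C4 C5))), by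
    simp [hc1, hc2, hc3, hc4, hc5], lt_max_of_lt_left hC1, ?_⟩
  rintro α μ (⟨rfl, rfl⟩ | ⟨rfl, rfl⟩ | ⟨rfl, rfl⟩ | ⟨rfl, rfl⟩ | ⟨rfl, rfl⟩) x M n hM
  · exact h1 _ _ (by simp) (by simp) x M n hM
  · exact h2 _ _ (by simp) (by simp) x M n hM
  · exact h3 _ _ (by simp) (by simp) x M n hM
  · exact h4 _ _ (by simp) (by simp) x M n hM
  · exact h5 _ _ (by simp) (by simp) x M n hM

end Pool.Agent.Y949.MP
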